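import Mathlib
import Pool.Agent.R194.MM.Compare

/-!
# MP_44d257_an: the projected Mather set is a uniqueness set (nonconvex Hamiltonians)

For every `H ∈ C^2(T^n × ℝ^n)` satisfying (A1) and (A2), any two continuous viscosity solutions
of the cell problem `H(x, Dv) = 0` on the torus which agree on the projected Mather set `M_0`
are equal.
-/

namespace Pool.Agent.Results.MP_44d257_an.MatherUniqueness

open Pool.Agent.R194.MM

/-- A closed set `K` is a uniqueness set for the cell problem `H(x, Dv) = c`. -/
def IsUniquenessSet {n : ℕ} (H : T n → E n → ℝ) (c : ℝ) (K : Set (T n)) : Prop :=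
  IsClosed K ∧ ∀ v w : T n → ℝ, IsSol H c v → IsSol H c w → (∀ x ∈ K, v x = w x) →
    ∀ x, v x = w x

theorem result (n : ℕ) (H : T n → E n → ℝ) (hH : HamC2 H) (hA1 : A1 H) (hA2 : A2 H) :
    IsUniquenessSet H 0 (projMather H 0) := by
  refine ⟨isClosed_closure, ?_⟩
  intro v w hv hw hvw x
  apply le_antisymm
  · exact comparison hH hA1 hA2 hv.1 hw.2 (fun y hy => (hvw y hy).le) x
  · exact comparison hH hA1 hA2 hw.1 hv.2 (fun y hy => (hvw y hy).ge) x

end Pool.Agent.Results.MP_44d257_an.MatherUniqueness
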